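import Pool.Agent.Lib.MP_3d51eb_gt.SR.AllM6

set_option autoImplicit false

/-!
# MP_3d51eb_gt: toric manifolds whose circuits are bounded by an odd number

Let `K` be a complete nonsingular fan in `ℤ^n`, `M` odd, and let the circuits of `K` be bounded by
`M`: every real linear relation of minimal support between the rays is a multiple of an integral
one with entries of absolute value at most `M`. This holds if all `n × n` minors of the rays are
of absolute value at most `M` (`M = 1`: unimodular rays), and it holds for every `K` with some odd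
`M`.

(1) If every set of at most `2 M` rays of `K` is a cone, then every isomorphism of graded rings
from the cohomology of `K` to the cohomology of a complete nonsingular fan `K'` in `ℤ^n` which
preserves the Pontrjagin classes `p_1, …, p_M` is induced by an element of `GL_n(ℤ)` and signs,
and `K'` is the image of `K`.

(2) Iterated simplicial wedges `L` of `K` are complete nonsingular fans with circuits bounded by
`M` and are J-constructions `K(J)`; every `J ≥ 1` occurs. If all `J v ≥ M + 1`, then all sets of at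
most `2 M` rays of `L` are cones.
-/

namespace Pool.Agent.Results.MP_3d51eb_gt.BoundedCircuits

open ToricPB ToricSR

theorem result :
    (∀ (n : ℕ) (K K' : Finset (Finset (Vec n))), IsFan K → IsFan K' → ∀ M : ℕ, Odd M →
      Circ K M → (∀ s ⊆ verts K, s.card ≤ 2 * M → s ∈ K) →
      ∀ φ : Coh K ≃+* Coh K', (∀ y, y ∈ H2 K ↔ φ y ∈ H2 K') →
      (∀ k, 1 ≤ k → k ≤ M → φ (pk K k) = pk K' k) →
      ∃ (g : Vec n ≃ₗ[ℤ] Vec n) (ε : Vec n → ℤ), (∀ v, ε v = 1 ∨ ε v = -1) ∧
        K' = K.image (fun s => s.image (fun v => ε v • g v)) ∧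
        ∀ v ∈ verts K, φ (cls K v) = ε v • cls K' (ε v • g v)) ∧
    ∀ (n : ℕ) (K : Finset (Finset (Vec n))), IsFan K →
      (∀ M : ℕ, Minors K M → Circ K M) ∧ (∃ M : ℕ, Odd M ∧ Circ K M) ∧
      (∀ M : ℕ, Circ K M → ∀ (m : ℕ) (L : Finset (Finset (Vec m))), Wedges n K m L →
        IsFan L ∧ Circ L M ∧
        (∃ (ρ : Vec m → Vec n) (J : Vec n → ℕ), IsJ K L ρ J ∧ ∀ v ∈ verts K, 1 ≤ J v) ∧
        ∀ (ρ : Vec m → Vec n) (J : Vec n → ℕ), IsJ K L ρ J → (∀ v ∈ verts K, M + 1 ≤ J v) →
          ∀ s ⊆ verts L, s.card ≤ 2 * M → s ∈ L) ∧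
      ∀ J : Vec n → ℕ, (∀ v ∈ verts K, 1 ≤ J v) →
        ∃ (m : ℕ) (L : Finset (Finset (Vec m))) (ρ : Vec m → Vec n), Wedges n K m L ∧
          IsJ K L ρ J := by
  refine ⟨bThmM6, fun n K hK => ⟨bMn n K hK, ?_, fun M hC =>
    (tThmMJ aWInv bWc4 aJa aJb aFb n K hK M hC).1, aJb n K hK⟩⟩
  obtain ⟨M, _, hM⟩ := bMx n K
  refine ⟨2 * M + 1, ⟨M, by ring⟩, bMn n K hK _ (fun b hb => (hM b hb).trans ?_)⟩
  push_cast
  omega

end Pool.Agent.Results.MP_3d51eb_gt.BoundedCircuits
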