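import Pool.Agent.Lib.MP_3d51eb_gt.NK.All
import Pool.Agent.Lib.MP_3d51eb_gt.NK.Defs3

set_option autoImplicit false

/-!
# MP_3d51eb_gt: necks of a complete nonsingular fan and orthogonal decompositions

Let `n ≥ 3` and let `K` be a complete nonsingular fan in the lattice of rank `n`. The second
cohomology of its toric manifold is the orthogonal sum of exactly `1 + number of necks`
indecomposable pieces `E i`; every orthogonal decomposition is obtained by grouping the pieces;
every neck splits the pieces into the inside and the outside of its cone, and any two pieces are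
separated by a neck. The two sides of a neck: the outside, closed with the cone of `B`, is a
complete nonsingular fan, and the cohomology rings of both sides are subrings.
-/

namespace Pool.Agent.Results.MP_3d51eb_gt.Necks

open ToricPB

theorem result (n : ℕ) (hn : 3 ≤ n) (K : Finset (Finset (Vec n))) (hK : IsFan K) :
    (∃ (E : Fin ((necks K).card + 1) → Submodule ℤ (Coh K))
      (I : Finset (Vec n) → Finset (Fin ((necks K).card + 1))),
      Finest K E ∧ NeckGroups K E I) ∧
    ∀ B ∈ necks K, IsFan (cut K B) ∧ Emb (cut K B) K (outer K B) ∧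
      Emb (core K B) K (inner K B) := by
  obtain ⟨E, I, h1, h2, h3, h4, h5, h6⟩ := aFin n K hK hn
  refine ⟨⟨E, I, ⟨h1, h2, ?_, h4⟩, ⟨fun B hB => ⟨(h5 B hB).1, (h5 B hB).2.2.1⟩,
    fun B hB => ⟨(h5 B hB).2.1, (h5 B hB).2.2.2⟩, h6⟩⟩, aSides n K hK (by omega)⟩
  rw [← h3, gsum]
  simp

end Pool.Agent.Results.MP_3d51eb_gt.Necks
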