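import Pool.Agent.Lib.MP_3d51eb_gt.PB.All

set_option autoImplicit false

/-!
# MP_3d51eb_gt: toric manifolds whose second cohomology splits like that of `M # k CP^n`

Let `K` be a complete nonsingular fan in the lattice of rank `n ≥ 3` whose second cohomology group
is `U + ℤ e_1 + … + ℤ e_k` with `e_i ≠ 0`, `e_i e_j = 0` for `i ≠ j` and `e_i U = 0`, and suppose
that `U = 0` (and `k > 0`), or that `U` contains a nonzero element of square zero with annihilator
(in `U`) of rank one. Then `K` is obtained from the fan of `CP^n` by `k - 1` successive point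
blow-ups (if `U = 0`), or from a complete nonsingular fan `K0` with `H^2(K0) = U` by `k` successive
point blow-ups (if `U ≠ 0`).
-/

namespace Pool.Agent.Results.MP_3d51eb_gt.PointBlowups

open ToricPB

theorem result (n : ℕ) (hn : 3 ≤ n) (K : Finset (Finset (Vec n))) (hK : IsFan K) (k : ℕ)
    (e : Fin k → Coh K) (U : Submodule ℤ (Coh K)) (hS : OrthSplit K k e U)
    (hU : (U = ⊥ ∧ 0 < k) ∨ SqZero K U) :
    (U = ⊥ → ∃ K0 : Finset (Finset (Vec n)), IsProj K0 ∧ Blowups (k - 1) K0 K) ∧
    (U ≠ ⊥ → ∃ K0 : Finset (Finset (Vec n)), IsFan K0 ∧ Blowups k K0 K ∧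
      ∃ ι : Coh K0 →+* Coh K, Function.Injective ι ∧ ∀ y, y ∈ U ↔ ∃ z ∈ H2 K0, ι z = y) := by
  have h := aMain n K k e U hK hn (aTop n K k e U hK hn hS) (hU.imp (fun h => h.1) id)
  refine ⟨fun h0 => h.1 h0 ?_, h.2⟩
  rcases hU with h1 | ⟨x, hx, hx0, _⟩
  · exact h1.2
  · exact absurd (by simpa [h0] using hx) hx0

end Pool.Agent.Results.MP_3d51eb_gt.PointBlowups
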