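import Pool.Agent.Lib.MP_3d51eb_gt.SR.AllJ
import Pool.Agent.Lib.MP_3d51eb_gt.SR.ThmA2p

set_option autoImplicit false

/-!
# MP_3d51eb_gt: toric manifolds in the stable range of the J-construction are rigid

Let `K` be a complete nonsingular fan in `ℤ^n` and `Y` its toric manifold, `D = nc K` the number of
the different classes of its invariant divisors in `H^2(Y)`, `b_2 = (verts K).card - n`,
`k = D - b_2 + 2`.

(1) If every set of at most `2 k` rays of `K` generates a cone, then every isomorphism of graded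
rings from the cohomology of `K` to the cohomology of a complete nonsingular fan `K'` in `ℤ^n`
which preserves the Pontrjagin classes `p_1, …, p_k` is induced by an element of `GL_n(ℤ)` and
signs: it maps the classes of the rays to the classes of the rays up to signs, and `K'` is the
image of `K`.

(2) Iterated simplicial wedges (canonical extensions) `L` of a complete nonsingular fan `K` in
`ℤ^n` are complete nonsingular fans and are J-constructions `K(J)`; every `J ≥ 1` occurs. If all
`J v ≥ n + 3`, or if all sets of at most `2 n + 4` rays of `L` are cones, then `L` is as in (1).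
-/

namespace Pool.Agent.Results.MP_3d51eb_gt.StableRange

open ToricPB ToricSR

theorem result :
    (∀ (n : ℕ) (K K' : Finset (Finset (Vec n))), IsFan K → IsFan K' → Stab K →
      ∀ φ : Coh K ≃+* Coh K', (∀ y, y ∈ H2 K ↔ φ y ∈ H2 K') →
      (∀ j, 1 ≤ j → j ≤ nc K + n + 2 - (verts K).card → φ (pk K j) = pk K' j) →
      ∃ (g : Vec n ≃ₗ[ℤ] Vec n) (ε : Vec n → ℤ), (∀ v, ε v = 1 ∨ ε v = -1) ∧
        K' = K.image (fun s => s.image (fun v => ε v • g v)) ∧
        ∀ v ∈ verts K, φ (cls K v) = ε v • cls K' (ε v • g v)) ∧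
    ∀ (n : ℕ) (K : Finset (Finset (Vec n))), IsFan K →
      (∀ (m : ℕ) (L : Finset (Finset (Vec m))), Wedges n K m L → IsFan L ∧
        (∃ (ρ : Vec m → Vec n) (J : Vec n → ℕ), IsJ K L ρ J ∧ ∀ v ∈ verts K, 1 ≤ J v) ∧
        ((∀ s ⊆ verts L, s.card ≤ 2 * n + 4 → s ∈ L) → Stab L) ∧
        ∀ (ρ : Vec m → Vec n) (J : Vec n → ℕ), IsJ K L ρ J → (∀ v ∈ verts K, n + 3 ≤ J v) →
          Stab L) ∧
      ∀ J : Vec n → ℕ, (∀ v ∈ verts K, 1 ≤ J v) →
        ∃ (m : ℕ) (L : Finset (Finset (Vec m))) (ρ : Vec m → Vec n), Wedges n K m L ∧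
          IsJ K L ρ J :=
  ⟨aThmA2p, tThmJ aThmB2 aJa aJb aFb⟩

end Pool.Agent.Results.MP_3d51eb_gt.StableRange
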